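import Pool.Agent.Helper74.DIH.Goals

/-!
# DIH-D2: a power of a translation is normalised up to sign
-/

set_option autoImplicit false

namespace Pool.Agent.Helper43.DIH

open Pool.Agent.Helper52.Wq2 Pool.Agent.Helper61.NW Pool.Agent.Helper74.DIH
open scoped Nat

universe u

theorem d2 : D2Stmt.{u} := by
  intro Γ _ ε h hD s hs
  have h1 : h 1 = 0 := by
    have := hD.coc 1 1
    rw [mul_one, map_one] at this
    push_cast at this
    linarith
  have hinv : ∀ x, h x⁻¹ = - ((ε x : ℤ) * h x) := by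
    intro x
    have := hD.coc x x⁻¹
    rw [mul_inv_cancel, h1] at this
    rcases Int.units_eq_one_or (ε x) with e | e
    · rw [e] at this ⊢
      push_cast at this ⊢
      linarith
    · rw [e] at this ⊢
      push_cast at this ⊢
      linarith
  let K : Subgroup Γ :=
    { carrier := {g | ε g = 1 ∧ h g = 0}
      one_mem' := ⟨map_one ε, h1⟩
      mul_mem' := by
        rintro a b ⟨ha, ha'⟩ ⟨hb, hb'⟩
        refine ⟨by rw [map_mul, ha, hb, one_mul], ?_⟩
        rw [hD.coc, ha', hb', mul_zero, add_zero]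
      inv_mem' := by
        rintro a ⟨ha, ha'⟩
        refine ⟨by rw [map_inv, ha, inv_one], ?_⟩
        rw [hinv, ha', mul_zero, neg_zero] }
  have hKmem : ∀ g, g ∈ K ↔ ε g = 1 ∧ h g = 0 := fun g => Iff.rfl
  have hKn : K.Normal := ⟨by
    rintro k ⟨hk, hk'⟩ γ
    refine ⟨by rw [map_mul, map_mul, map_inv, hk, mul_one, mul_inv_cancel], ?_⟩
    rw [hD.coc, hD.coc, hinv, hk', map_mul, hk, mul_one]
    rcases Int.units_eq_one_or (ε γ) with e | e
    · rw [e]
      push_cast
      ring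
    · rw [e]
      push_cast
      ring⟩
  have hfin : Finite K := hD.ker.to_subtype
  set c := ({g | ε g = 1 ∧ h g = 0} : Set Γ).ncard with hcdef
  have hc : Nat.card K = c := Nat.card_coe_set_eq ({g | ε g = 1 ∧ h g = 0} : Set Γ)
  have hcpos : 0 < c := by
    rw [← hc]
    exact Nat.card_pos
  have hz : ∀ k ∈ K, s ^ (c !) * k = k * s ^ (c !) := by
    intro k hk
    let σ : Equiv.Perm K := MulAut.toPerm K (MulAut.conjNormal s)
    have hσ : σ ^ (c !) = 1 := by
      have := pow_card_eq_one' (x := σ)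
      rwa [Nat.card_perm, hc] at this
    have hσ' : σ ^ (c !) = MulAut.toPerm K (MulAut.conjNormal (s ^ (c !))) := by
      simp only [σ, map_pow]
    rw [hσ'] at hσ
    have h2 := congrArg (fun τ : Equiv.Perm K => ((τ ⟨k, hk⟩ : K) : Γ)) hσ
    have h3 : s ^ (c !) * k * (s ^ (c !))⁻¹ = k := h2
    rw [mul_inv_eq_iff_eq_mul] at h3
    exact h3
  set z := s ^ (c !) with hzdef
  have hεz : ε z = 1 := by rw [hzdef, map_pow, hs, one_pow]
  have hzi : h z⁻¹ = - h z := by
    rw [hinv, hεz]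
    push_cast
    ring
  refine ⟨c ! * c, Nat.mul_pos (Nat.factorial_pos c) hcpos, le_rfl, ?_⟩
  intro γ
  -- `γ⁻¹ z γ = k z ^ E`
  have key : ∀ E : ℤ, (ε γ : ℤ) = E → (E = 1 ∨ E = -1) → γ⁻¹ * z ^ c * γ = (z ^ E) ^ c := by
    intro E hE hE'
    have hzE : h (z ^ E) = E * h z := by
      rcases hE' with e | e
      · rw [e, zpow_one, one_mul]
      · rw [e, zpow_neg_one, hzi]
        ring
    have hεzE : ε (z ^ E) = 1 := by rw [map_zpow, hεz, one_zpow]
    have hεg : ε (γ⁻¹ * z * γ) = 1 := by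
      rw [map_mul, map_mul, map_inv, hεz, mul_one, inv_mul_cancel]
    have hEE : E * E = 1 := by
      rcases hE' with e | e <;> rw [e] <;> norm_num
    have hεi : ((ε γ⁻¹ : ℤˣ) : ℤ) = E := by
      rw [map_inv, Int.units_inv_eq_self, hE]
    have hhg : h (γ⁻¹ * z * γ) = E * h z := by
      rw [hD.coc, hD.coc, map_mul, hεz, mul_one, hεi, hinv, hE]
      ring
    have hk : γ⁻¹ * z * γ * (z ^ E)⁻¹ ∈ K := by
      rw [hKmem]
      refine ⟨by rw [map_mul, hεg, map_inv, hεzE, inv_one, one_mul], ?_⟩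
      rw [hD.coc, hεg, hhg, hinv, hεzE, hzE]
      push_cast
      ring
    set k := γ⁻¹ * z * γ * (z ^ E)⁻¹ with hkdef
    have hg : γ⁻¹ * z * γ = k * z ^ E := by
      rw [hkdef, inv_mul_cancel_right]
    have hcomm : Commute k (z ^ E) := by
      have h4 : Commute z k := hz k hk
      exact (h4.symm).zpow_right E
    have hkc : k ^ c = 1 := by
      have h5 : (⟨k, hk⟩ : K) ^ Nat.card K = 1 := pow_card_eq_one'
      rw [hc] at h5
      exact congrArg Subtype.val h5
    have h6 : (γ⁻¹ * z * γ) ^ c = γ⁻¹ * z ^ c * γ := by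
      have := conj_pow (a := γ⁻¹) (b := z) (i := c)
      rw [inv_inv] at this
      exact this
    rw [← h6, hg, hcomm.mul_pow, hkc, one_mul]
  have hE := key (ε γ : ℤ) rfl (by
    rcases Int.units_eq_one_or (ε γ) with e | e
    · left; rw [e]; rfl
    · right; rw [e]; rfl)
  have h7 : s ^ (c ! * c) = z ^ c := by rw [hzdef, pow_mul]
  have h8 : s ^ ((ε γ : ℤ) * ((c ! * c : ℕ) : ℤ)) = (z ^ (ε γ : ℤ)) ^ c := by
    rw [hzdef, ← zpow_natCast s (c !), ← zpow_mul, ← zpow_natCast, ← zpow_mul]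
    congr 1
    push_cast
    ring
  rw [h7, h8, ← hE]
  group

end Pool.Agent.Helper43.DIH
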